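import Pool.Agent.Lib_helper41.TK.W.AB

/-! TK, block AC. -/

set_option autoImplicit false

namespace Pool.Agent.TK

open Pool.Agent.LEV Pool.Agent.LVB Pool.Agent.KSL
open Pool.Agent.LK (PQ)
open Pool.Agent.FG61 (mu phi cc ff AA Lam)
open Complex MeasureTheory Filter Topology UpperHalfPlane ModularGroup ProbabilityTheory
open scoped MatrixGroups Modular ENNReal ModularForm ComplexConjugate ContDiff

theorem ac_qs_qr (q : ℕ) {m : ℕ} (hm : 1 ≤ m) : qs q m * qr q m = m := by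
  unfold qs qr
  rw [Finset.prod_filter_mul_prod_filter_not, ← Nat.prod_factorization_eq_prod_primeFactors]
  exact Nat.prod_factorization_pow_eq_self (by omega)

theorem ac_qs_pos (q : ℕ) {m : ℕ} (hm : 1 ≤ m) : 1 ≤ qs q m := by
  rcases Nat.eq_zero_or_pos (qs q m) with h | h
  · have := ac_qs_qr q hm
    rw [h, zero_mul] at this
    omega
  · exact h

theorem ac_qr_pos (q : ℕ) {m : ℕ} (hm : 1 ≤ m) : 1 ≤ qr q m := by
  rcases Nat.eq_zero_or_pos (qr q m) with h | h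
  · have := ac_qs_qr q hm
    rw [h, mul_zero] at this
    omega
  · exact h

theorem ac_qs_pf {q : ℕ} (hq : 1 ≤ q) (m : ℕ) : (qs q m).primeFactors ⊆ q.primeFactors := by
  intro p hp
  have hpp := Nat.prime_of_mem_primeFactors hp
  have h1 := Nat.dvd_of_mem_primeFactors hp
  unfold qs at h1
  obtain ⟨p', hp', h2⟩ := (hpp.prime.dvd_finsetProd_iff _).1 h1
  rw [Finset.mem_filter] at hp'
  have h3 := hpp.dvd_of_dvd_pow h2
  have h4 : p = p' :=
    (Nat.prime_dvd_prime_iff_eq hpp (Nat.prime_of_mem_primeFactors hp'.1)).1 h3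
  rw [h4]
  exact Nat.mem_primeFactors.2 ⟨Nat.prime_of_mem_primeFactors hp'.1, hp'.2, by omega⟩

theorem ac_qr_cop (q m : ℕ) : (qr q m).Coprime q := by
  unfold qr
  refine Nat.Coprime.prod_left fun p hp => ?_
  rw [Finset.mem_filter] at hp
  exact Nat.Coprime.pow_left _
    (((Nat.prime_of_mem_primeFactors hp.1).coprime_iff_not_dvd).2 hp.2)

theorem ac_cop {q k l : ℕ} (hk : 1 ≤ k) (hkq : k.primeFactors ⊆ q.primeFactors)
    (hl : l.Coprime q) : k.Coprime l := by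
  by_contra h
  obtain ⟨p, hp, h1, h2⟩ := Nat.Prime.not_coprime_iff_dvd.1 h
  have h3 : p ∈ k.primeFactors := Nat.mem_primeFactors.2 ⟨hp, h1, by omega⟩
  have h4 := Nat.dvd_of_mem_primeFactors (hkq h3)
  exact Nat.Prime.not_coprime_iff_dvd.2 ⟨p, hp, h2, h4⟩ hl

theorem ac_uniq {q k l k' l' : ℕ} (hk : 1 ≤ k) (hkq : k.primeFactors ⊆ q.primeFactors)
    (hl : l.Coprime q) (hk' : 1 ≤ k') (hkq' : k'.primeFactors ⊆ q.primeFactors)
    (hl' : l'.Coprime q) (h : k * l = k' * l') : k = k' ∧ l = l' := by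
  have e1 : k ∣ k' := (ac_cop hk hkq hl').dvd_of_dvd_mul_right (h ▸ Dvd.intro _ rfl)
  have e2 : k' ∣ k := (ac_cop hk' hkq' hl).dvd_of_dvd_mul_right (h.symm ▸ Dvd.intro _ rfl)
  have e3 := Nat.dvd_antisymm e1 e2
  subst e3
  exact ⟨rfl, Nat.eq_of_mul_eq_mul_left (show 0 < k by omega) h⟩

theorem qs_qr {q m : ℕ} (hq : 1 ≤ q) (hm : 1 ≤ m) : qs q m * qr q m = m ∧
    (qs q m).primeFactors ⊆ q.primeFactors ∧ (qr q m).Coprime q ∧ 1 ≤ qs q m ∧ 1 ≤ qr q m :=
  ⟨ac_qs_qr q hm, ac_qs_pf hq m, ac_qr_cop q m, ac_qs_pos q hm, ac_qr_pos q hm⟩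

theorem qs_mul {q k d : ℕ} (hq : 1 ≤ q) (hk : 1 ≤ k) (hkq : k.primeFactors ⊆ q.primeFactors)
    (hd : 1 ≤ d) (hdq : d.Coprime q) : qs q (k * d) = k ∧ qr q (k * d) = d := by
  have hm : 1 ≤ k * d := Nat.mul_pos (by omega) (by omega)
  exact ac_uniq (ac_qs_pos q hm) (ac_qs_pf hq _) (ac_qr_cop q _) hk hkq hdq (ac_qs_qr q hm)

theorem ac_reindex {M : Type*} [AddCommMonoid M] {q : ℕ} (hq : 1 ≤ q) (K : ℕ) (P : ℕ → Prop)
    [DecidablePred P] (G : ℕ → M) (hG : ∀ c, ¬ q ∣ c → G c = 0) :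
    ∑ c ∈ (Finset.Icc 1 (q * K)).filter P, G c =
      ∑ m ∈ (Finset.Icc 1 K).filter (fun m => P (q * m)), G (q * m) := by
  rw [← Finset.sum_filter_of_ne (p := fun c => q ∣ c)
    (s := (Finset.Icc 1 (q * K)).filter P)]
  · refine Finset.sum_bij' (fun c _ => c / q) (fun m _ => q * m) ?_ ?_ ?_ ?_ ?_
    · intro c hc
      simp only [Finset.mem_filter, Finset.mem_Icc] at hc ⊢
      obtain ⟨⟨⟨h1, h2⟩, h3⟩, m, rfl⟩ := hc
      rw [Nat.mul_div_cancel_left _ (by omega : 0 < q)]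
      refine ⟨⟨?_, Nat.le_of_mul_le_mul_left h2 (by omega)⟩, h3⟩
      rcases Nat.eq_zero_or_pos m with h | h
      · rw [h, mul_zero] at h1
        omega
      · exact h
    · intro m hm
      simp only [Finset.mem_filter, Finset.mem_Icc] at hm ⊢
      exact ⟨⟨⟨Nat.mul_pos (by omega) (by omega), Nat.mul_le_mul_left _ hm.1.2⟩, hm.2⟩,
        Dvd.intro _ rfl⟩
    · intro c hc
      simp only [Finset.mem_filter] at hc
      exact Nat.mul_div_cancel' hc.2
    · intro m _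
      exact Nat.mul_div_cancel_left _ (by omega : 0 < q)
    · intro c hc
      simp only [Finset.mem_filter] at hc
      rw [Nat.mul_div_cancel' hc.2]
  · intro c _ hc
    by_contra h
    exact hc (hG c h)

theorem ac_cc {q d n : ℕ} (hq : 1 ≤ q) (hd : d.Coprime q) (hn : 1 ≤ n) :
    cc d n = cc d (qr q n) := by
  have h1 : Nat.gcd d n = Nat.gcd d (qr q n) := by
    conv_lhs => rw [← ac_qs_qr q hn]
    exact Nat.Coprime.gcd_mul_left_cancel_right _
      (ac_cop (ac_qs_pos q hn) (ac_qs_pf hq n) hd)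
  unfold cc
  rw [h1]

section
variable {q : ℕ} [NeZero q]

theorem ac_chi_sq {χ : DirichletCharacter ℂ q} (hχ : PQ χ) {d : ℕ} (hd : d.Coprime q) :
    χ (d : ZMod q) * χ (d : ZMod q) = 1 := by
  have h1 : IsUnit ((d : ℕ) : ZMod q) := (ZMod.isUnit_iff_coprime d q).2 hd
  have h2 : (χ ^ 2) (d : ZMod q) = 1 := by
    rw [hχ.sq, MulChar.one_apply h1]
  rw [← sq, ← MulChar.pow_apply' χ (by norm_num : (2 : ℕ) ≠ 0)]
  exact h2

theorem ac_chi_norm {χ : DirichletCharacter ℂ q} {d : ℕ} (hd : d.Coprime q) :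
    ‖χ (d : ZMod q)‖ = 1 := by
  have := DirichletCharacter.unit_norm_eq_one χ (ZMod.unitOfCoprime d hd)
  rwa [ZMod.coe_unitOfCoprime] at this

theorem ac_gs_ne {χ : DirichletCharacter ℂ q} (hχ : PQ χ) :
    gaussSum χ ZMod.stdAddChar ≠ 0 := by
  intro h
  have h1 := gauss_norm hχ
  rw [h, norm_zero] at h1
  have h2 : (q : ℝ) ≠ 0 := by exact_mod_cast NeZero.ne q
  apply h2
  rw [← h1]
  norm_num

/-- one denominator -/
theorem ac_term {χ : DirichletCharacter ℂ q} (hχ : PQ χ) (v : ℕ → ℕ → ℝ) {m : ℕ} (hm : 1 ≤ m)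
    (n : ℤ) :
    ∑ j ∈ RR (q * m), tw χ v (q * m) j *
      cexp (2 * Real.pi * Complex.I * n * (((j : ℝ) / ((q * m : ℕ) : ℝ) : ℝ) : ℂ)) =
    if (qs q m : ℤ) ∣ n then (v (qs q m) (qr q m) : ℂ) * (qs q m : ℂ) *
      χ ((n / (qs q m : ℤ) : ℤ) : ZMod q) * (cc (qr q m) n.natAbs : ℂ) else 0 := by
  have hq : 1 ≤ q := Nat.one_le_iff_ne_zero.2 (NeZero.ne q)
  obtain ⟨h1, h2, h3, h4, h5⟩ := qs_qr hq hm
  have h6 := char_sum hχ h4 h2 h5 h3 n
  rw [h1] at h6
  have h7 : ∀ j ∈ RR (q * m), tw χ v (q * m) j *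
      cexp (2 * Real.pi * Complex.I * n * (((j : ℝ) / ((q * m : ℕ) : ℝ) : ℝ) : ℂ)) =
      ((v (qs q m) (qr q m) : ℂ) * χ (qr q m : ℕ) / gaussSum χ ZMod.stdAddChar) *
      (χ j * cexp (2 * Real.pi * Complex.I * n * (((j : ℝ) / ((q * m : ℕ) : ℝ) : ℝ) : ℂ))) := by
    intro j _
    unfold tw
    rw [if_pos (Dvd.intro _ rfl), Nat.mul_div_cancel_left _ (by omega : 0 < q)]
    ring
  rw [Finset.sum_congr rfl h7, ← Finset.mul_sum, h6]
  split_ifs with h8
  · have h9 := ac_chi_sq hχ h3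
    have h10 := ac_gs_ne hχ
    field_simp
    linear_combination ((v (qs q m) (qr q m) : ℂ) * (qs q m : ℂ) *
      χ ((n / (qs q m : ℤ) : ℤ) : ZMod q) * (cc (qr q m) n.natAbs : ℂ)) * h9
  · rw [mul_zero]

theorem ac_red {χ : DirichletCharacter ℂ q} (hχ : PQ χ) (v : ℕ → ℕ → ℝ) (K : ℕ) (D : ℝ)
    (n : ℤ) :
    gT (q * K) (tw χ v) D n = ∑ m ∈ (Finset.Icc 1 K).filter (fun m : ℕ => D < ((q * m : ℕ) : ℝ)),
      if (qs q m : ℤ) ∣ n then (v (qs q m) (qr q m) : ℂ) * (qs q m : ℂ) *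
        χ ((n / (qs q m : ℤ) : ℤ) : ZMod q) * (cc (qr q m) n.natAbs : ℂ) else 0 := by
  have hq : 1 ≤ q := Nat.one_le_iff_ne_zero.2 (NeZero.ne q)
  unfold gT
  rw [ac_reindex hq K (fun c : ℕ => D < c) (fun c => ∑ j ∈ RR c,
    tw χ v c j * cexp (2 * Real.pi * Complex.I * n * (((j : ℝ) / c : ℝ) : ℂ)))]
  · refine Finset.sum_congr rfl fun m hm => ?_
    simp only [Finset.mem_filter, Finset.mem_Icc] at hm
    exact ac_term hχ v hm.1.1 n
  · intro c hc
    refine Finset.sum_eq_zero fun j _ => ?_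
    unfold tw
    rw [if_neg hc, zero_mul]

/-- the term of `m` vanishes unless `m` and `n` have the same part at `q` -/
theorem ac_van {χ : DirichletCharacter ℂ q} (hχ : PQ χ) {n : ℤ} (hn : n ≠ 0) {k : ℕ} (hk : 1 ≤ k)
    (hkq : k.primeFactors ⊆ q.primeFactors) (hd : (k : ℤ) ∣ n)
    (h : χ ((n / (k : ℤ) : ℤ) : ZMod q) ≠ 0) : k = qs q n.natAbs := by
  have hq : 1 ≤ q := Nat.one_le_iff_ne_zero.2 (NeZero.ne q)
  have hn1 : 1 ≤ n.natAbs := by
    have := Int.natAbs_pos.2 hn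
    omega
  obtain ⟨l, rfl⟩ := hd
  rw [Int.mul_ediv_cancel_left _ (by exact_mod_cast (by omega : k ≠ 0))] at h
  have h1 : IsUnit ((l : ℤ) : ZMod q) := by
    by_contra h2
    exact h (MulChar.map_nonunit χ h2)
  have h2 : l.natAbs.Coprime q := by
    have h3 : IsUnit ((l.natAbs : ℕ) : ZMod q) := by
      rcases Int.natAbs_eq l with h4 | h4
      · rw [h4] at h1
        simpa using h1
      · rw [h4] at h1
        simpa using h1
    exact (ZMod.isUnit_iff_coprime _ q).1 h3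
  have h4 : ((k : ℤ) * l).natAbs = k * l.natAbs := by
    rw [Int.natAbs_mul, Int.natAbs_natCast]
  have h5 := ac_qs_qr q hn1
  exact (ac_uniq hk hkq h2 (ac_qs_pos q hn1) (ac_qs_pf hq _) (ac_qr_cop q _)
    (by rw [h5, h4])).1

/-- the Fourier coefficients of the twisted weights -/
theorem gT_tw {χ : DirichletCharacter ℂ q} (hχ : PQ χ) (v : ℕ → ℕ → ℝ) (K : ℕ) (D : ℝ) {n : ℤ}
    (hn : n ≠ 0) :
    gT (q * K) (tw χ v) D n = (qs q n.natAbs : ℂ) * χ ((n / (qs q n.natAbs : ℤ) : ℤ) : ZMod q) *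
      ((∑ d ∈ (Finset.Icc 1 K).filter (fun d : ℕ => d.Coprime q ∧ qs q n.natAbs * d ≤ K ∧
          D < q * (qs q n.natAbs * d)),
        v (qs q n.natAbs) d * cc d (qr q n.natAbs) : ℝ) : ℂ) := by
  have hq : 1 ≤ q := Nat.one_le_iff_ne_zero.2 (NeZero.ne q)
  have hn1 : 1 ≤ n.natAbs := by
    have := Int.natAbs_pos.2 hn
    omega
  obtain ⟨g1, g2, g3, g4, g5⟩ := qs_qr hq hn1
  rw [ac_red hχ]
  set k0 := qs q n.natAbs with hk0
  have hk0d : (k0 : ℤ) ∣ n := by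
    rw [← Int.dvd_natAbs]
    exact_mod_cast Dvd.intro _ g1
  rw [← Finset.sum_filter_of_ne (p := fun m => qs q m = k0)]
  · rw [Complex.ofReal_sum, Finset.mul_sum]
    symm
    refine Finset.sum_bij' (fun d _ => k0 * d) (fun m _ => qr q m) ?_ ?_ ?_ ?_ ?_
    · intro d hd
      simp only [Finset.mem_filter, Finset.mem_Icc] at hd ⊢
      obtain ⟨⟨h1, h2⟩, h3, h4, h5⟩ := hd
      refine ⟨⟨⟨Nat.mul_pos (by omega) (by omega), h4⟩, ?_⟩, (qs_mul hq g4 g2 h1 h3).1⟩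
      push_cast
      exact h5
    · intro m hm
      simp only [Finset.mem_filter, Finset.mem_Icc] at hm ⊢
      obtain ⟨⟨⟨h1, h2⟩, h3⟩, h4⟩ := hm
      obtain ⟨e1, e2, e3, e4, e5⟩ := qs_qr hq h1
      rw [h4] at e1
      have e6 : qr q m ≤ m := by
        calc qr q m = 1 * qr q m := (one_mul _).symm
          _ ≤ k0 * qr q m := Nat.mul_le_mul_right _ g4
          _ = m := e1
      refine ⟨⟨e5, e6.trans h2⟩, e3, e1.le.trans h2, ?_⟩
      have e7 : ((k0 : ℝ) * (qr q m : ℝ)) = m := by exact_mod_cast e1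
      rw [e7]
      push_cast at h3
      exact h3
    · intro d hd
      simp only [Finset.mem_filter, Finset.mem_Icc] at hd
      exact (qs_mul hq g4 g2 hd.1.1 hd.2.1).2
    · intro m hm
      simp only [Finset.mem_filter, Finset.mem_Icc] at hm
      have e1 := ac_qs_qr q hm.1.1.1
      rw [hm.2] at e1
      exact e1
    · intro d hd
      simp only [Finset.mem_filter, Finset.mem_Icc] at hd
      obtain ⟨e1, e2⟩ := qs_mul hq g4 g2 hd.1.1 hd.2.1
      rw [e1, e2, if_pos hk0d, ac_cc hq hd.2.1 hn1]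
      push_cast
      ring
  · intro m hm h
    simp only [Finset.mem_filter, Finset.mem_Icc] at hm
    obtain ⟨e1, e2, e3, e4, e5⟩ := qs_qr hq hm.1.1
    split_ifs at h with h1
    · refine ac_van hχ hn e4 e2 h1 ?_
      intro h2
      rw [h2, mul_zero, zero_mul] at h
      exact h rfl
    · exact absurd rfl h

theorem gT_zero {χ : DirichletCharacter ℂ q} (hχ : PQ χ) (v : ℕ → ℕ → ℝ) (K : ℕ) (D : ℝ) :
    gT (q * K) (tw χ v) D 0 = 0 := by
  have hq1 : q ≠ 1 := by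
    intro h
    subst h
    exact hχ.ne (DirichletCharacter.level_one χ)
  rw [ac_red hχ]
  refine Finset.sum_eq_zero fun m _ => ?_
  rw [if_pos (dvd_zero _), Int.zero_ediv]
  have h1 : χ (((0 : ℤ) : ℤ) : ZMod q) = 0 := by
    haveI : Nontrivial (ZMod q) := ZMod.nontrivial_iff.2 hq1
    rw [Int.cast_zero]
    exact MulChar.map_nonunit χ not_isUnit_zero
  rw [h1, mul_zero, zero_mul]

omit [NeZero q] in
theorem ac_card (m : ℕ) : (RR m).card = Nat.totient m := by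
  unfold RR
  rw [Nat.totient_eq_card_coprime]

theorem ac_tot {q k d : ℕ} (hq : 1 ≤ q) (hk : 1 ≤ k) (hkq : k.primeFactors ⊆ q.primeFactors)
    (hdq : d.Coprime q) :
    Nat.totient (q * (k * d)) = Nat.totient q * (k * Nat.totient d) := by
  have h1 : (q * k).Coprime d := Nat.Coprime.mul_left hdq.symm (ac_cop hk hkq hdq)
  rw [← mul_assoc, Nat.totient_mul h1]
  have h2 := Nat.totient_mul_prod_primeFactors (q * k)
  have h3 := Nat.totient_mul_prod_primeFactors q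
  have h4 : (q * k).primeFactors = q.primeFactors := by
    rw [Nat.primeFactors_mul (by omega) (by omega)]
    exact Finset.union_eq_left.2 hkq
  rw [h4] at h2
  have h5 : 0 < ∏ p ∈ q.primeFactors, p :=
    Finset.prod_pos fun p hp => (Nat.prime_of_mem_primeFactors hp).pos
  have h6 : Nat.totient (q * k) * ∏ p ∈ q.primeFactors, p =
      (Nat.totient q * k) * ∏ p ∈ q.primeFactors, p := by
    rw [h2]
    calc q * k * ∏ p ∈ q.primeFactors, (p - 1)
        = (q * ∏ p ∈ q.primeFactors, (p - 1)) * k := by ring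
      _ = _ := by rw [← h3]; ring
  rw [Nat.eq_of_mul_eq_mul_right h5 h6]
  ring

theorem gE_tw {χ : DirichletCharacter ℂ q} (hχ : PQ χ) (v : ℕ → ℕ → ℝ) (K : ℕ) :
    gE (q * K) (tw χ v) = phi q / q * ∑ m ∈ Finset.Icc 1 K,
      qs q m * phi (qr q m) * v (qs q m) (qr q m) ^ 2 := by
  have hq : 1 ≤ q := Nat.one_le_iff_ne_zero.2 (NeZero.ne q)
  unfold gE
  have h1 := ac_reindex hq K (fun _ : ℕ => True) (fun c => ∑ j ∈ RR c, ‖tw χ v c j‖ ^ 2) (by
    intro c hc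
    refine Finset.sum_eq_zero fun j _ => ?_
    unfold tw
    rw [if_neg hc, norm_zero]
    norm_num)
  simp only [Finset.filter_true] at h1
  rw [h1, Finset.mul_sum]
  refine Finset.sum_congr rfl fun m hm => ?_
  rw [Finset.mem_Icc] at hm
  obtain ⟨e1, e2, e3, e4, e5⟩ := qs_qr hq hm.1
  have h2 : ∀ j ∈ RR (q * m), ‖tw χ v (q * m) j‖ ^ 2 = v (qs q m) (qr q m) ^ 2 / q := by
    intro j hj
    have hj1 : (q * m).Coprime j := (Finset.mem_filter.1 hj).2
    have hj2 : j.Coprime q := (Nat.Coprime.coprime_mul_right hj1).symm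
    unfold tw
    rw [if_pos (Dvd.intro _ rfl), Nat.mul_div_cancel_left _ (by omega : 0 < q), norm_div,
      norm_mul, norm_mul, ac_chi_norm e3, ac_chi_norm hj2, mul_one, mul_one, div_pow,
      gauss_norm hχ, Complex.norm_real, Real.norm_eq_abs, sq_abs]
  rw [Finset.sum_congr rfl h2, Finset.sum_const, nsmul_eq_mul, ac_card]
  have h3 : Nat.totient (q * m) = Nat.totient q * (qs q m * Nat.totient (qr q m)) := by
    conv_lhs => rw [← e1]
    exact ac_tot hq e4 e2 e3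
  rw [h3]
  push_cast
  ring

end

end Pool.Agent.TK
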