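import Pool.Agent.Lib_helper41.TK.Defs
import Pool.Agent.Lib_helper68.KSLF.PHI

/-! TK, block AF. -/

set_option autoImplicit false

namespace Pool.Agent.TK

open Pool.Agent.LEV Pool.Agent.LVB Pool.Agent.KSL
open Pool.Agent.LK (PQ)
open Pool.Agent.FG61 (mu phi cc ff AA Lam)
open Complex MeasureTheory Filter Topology UpperHalfPlane ModularGroup ProbabilityTheory
open scoped MatrixGroups Modular ENNReal ModularForm ComplexConjugate ContDiff

theorem af_qs_qr (q : ℕ) {m : ℕ} (hm : 1 ≤ m) : qs q m * qr q m = m := by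
  unfold qs qr
  rw [Finset.prod_filter_mul_prod_filter_not, ← Nat.prod_factorization_eq_prod_primeFactors]
  exact Nat.prod_factorization_pow_eq_self (by omega)

theorem af_qs_pos (q : ℕ) {m : ℕ} (hm : 1 ≤ m) : 1 ≤ qs q m := by
  rcases Nat.eq_zero_or_pos (qs q m) with h | h
  · have := af_qs_qr q hm
    rw [h, zero_mul] at this
    omega
  · exact h

theorem af_qr_pos (q : ℕ) {m : ℕ} (hm : 1 ≤ m) : 1 ≤ qr q m := by
  rcases Nat.eq_zero_or_pos (qr q m) with h | h
  · have := af_qs_qr q hm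
    rw [h, mul_zero] at this
    omega
  · exact h

theorem af_qs_pf {q : ℕ} (hq : 1 ≤ q) (m : ℕ) : (qs q m).primeFactors ⊆ q.primeFactors := by
  intro p hp
  have hpp := Nat.prime_of_mem_primeFactors hp
  have h1 := Nat.dvd_of_mem_primeFactors hp
  unfold qs at h1
  obtain ⟨p', hp', h2⟩ := (hpp.prime.dvd_finsetProd_iff _).1 h1
  rw [Finset.mem_filter] at hp'
  have h3 := hpp.dvd_of_dvd_pow h2
  have h4 : p = p' :=
    (Nat.prime_dvd_prime_iff_eq hpp (Nat.prime_of_mem_primeFactors hp'.1)).1 h3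
  rw [h4]
  exact Nat.mem_primeFactors.2 ⟨Nat.prime_of_mem_primeFactors hp'.1, hp'.2, by omega⟩

theorem af_qr_cop (q m : ℕ) : (qr q m).Coprime q := by
  unfold qr
  refine Nat.Coprime.prod_left fun p hp => ?_
  rw [Finset.mem_filter] at hp
  exact Nat.Coprime.pow_left _
    (((Nat.prime_of_mem_primeFactors hp.1).coprime_iff_not_dvd).2 hp.2)

theorem af_cop {q k l : ℕ} (hk : 1 ≤ k) (hkq : k.primeFactors ⊆ q.primeFactors)
    (hl : l.Coprime q) : k.Coprime l := by
  by_contra h
  obtain ⟨p, hp, h1, h2⟩ := Nat.Prime.not_coprime_iff_dvd.1 h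
  have h3 : p ∈ k.primeFactors := Nat.mem_primeFactors.2 ⟨hp, h1, by omega⟩
  have h4 := Nat.dvd_of_mem_primeFactors (hkq h3)
  exact Nat.Prime.not_coprime_iff_dvd.2 ⟨p, hp, h2, h4⟩ hl

theorem af_sum {q A : ℕ} (hq : 1 ≤ q) (F : ℕ → ℝ) (hF : ∀ n, A < n → F n = 0) :
    ∑ l ∈ (Finset.Icc 1 A).filter (fun l => l.Coprime q), ∑ k ∈ QI q A, F (k * l) =
      ∑ n ∈ Finset.Icc 1 A, F n := by
  rw [← Finset.sum_product', ← Finset.sum_filter_of_ne (p := fun x : ℕ × ℕ => x.2 * x.1 ≤ A)]
  · refine Finset.sum_bij (fun x _ => x.2 * x.1) ?_ ?_ ?_ ?_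
    · intro x hx
      simp only [QI, Finset.mem_filter, Finset.mem_product, Finset.mem_Icc] at hx
      rw [Finset.mem_Icc]
      exact ⟨Nat.mul_pos (by omega) (by omega), hx.2⟩
    · intro x hx y hy hxy
      simp only [QI, Finset.mem_filter, Finset.mem_product, Finset.mem_Icc] at hx hy
      obtain ⟨⟨⟨hx1, hx2⟩, hx3, hx4⟩, hx5⟩ := hx
      obtain ⟨⟨⟨hy1, hy2⟩, hy3, hy4⟩, hy5⟩ := hy
      have hxy : x.2 * x.1 = y.2 * y.1 := hxy
      have e1 : x.2 ∣ y.2 :=
        (af_cop (by omega) hx4 hy2).dvd_of_dvd_mul_right (hxy ▸ Dvd.intro _ rfl)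
      have e2 : y.2 ∣ x.2 :=
        (af_cop (by omega) hy4 hx2).dvd_of_dvd_mul_right (hxy.symm ▸ Dvd.intro _ rfl)
      have e3 := Nat.dvd_antisymm e1 e2
      rw [e3] at hxy
      have e4 := Nat.eq_of_mul_eq_mul_left (show 0 < y.2 by omega) hxy
      exact Prod.ext e4 e3
    · intro n hn
      rw [Finset.mem_Icc] at hn
      have h1 := af_qs_qr q hn.1
      have h2 := af_qs_pos q hn.1
      have h3 := af_qr_pos q hn.1
      refine ⟨(qr q n, qs q n), ?_, h1⟩
      simp only [QI, Finset.mem_filter, Finset.mem_product, Finset.mem_Icc]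
      have h4 : qr q n ≤ n := by
        calc qr q n = 1 * qr q n := (one_mul _).symm
          _ ≤ qs q n * qr q n := Nat.mul_le_mul_right _ h2
          _ = n := h1
      have h5 : qs q n ≤ n := by
        calc qs q n = qs q n * 1 := (mul_one _).symm
          _ ≤ qs q n * qr q n := Nat.mul_le_mul_left _ h3
          _ = n := h1
      exact ⟨⟨⟨⟨h3, h4.trans hn.2⟩, af_qr_cop q n⟩, ⟨h2, h5.trans hn.2⟩, af_qs_pf hq n⟩,
        h1.le.trans hn.2⟩
    · intro x _
      rfl
  · intro x _ hx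
    by_contra h
    exact hx (hF _ (by omega))

/-- the projection has the same Fourier coefficients at the numbers coprime to `q` -/
theorem pj_ph {q z A : ℕ} {a : ℕ → ℝ} (ha : ∀ k, a k ≠ 0 → smooth z k ∧ k ≤ A) (hq : 1 ≤ q)
    {m : ℕ} (hm : 1 ≤ m) (hmq : m.Coprime q) : Ph A (pj q A a) m = Ph A a m := by
  have h0 := af_sum (A := A) hq
    (fun n => a n / Real.sqrt n * ∑ d ∈ (Nat.gcd n m).divisors, (d : ℝ)) (by
      intro n hn
      have : a n = 0 := by
        by_contra h
        have := (ha n h).2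
        omega
      simp only [this, zero_div, zero_mul])
  unfold Ph
  rw [← h0, Finset.sum_filter]
  refine Finset.sum_congr rfl fun l hl => ?_
  unfold pj
  split_ifs with hlq
  · rw [Finset.sum_div, Finset.sum_mul]
    refine Finset.sum_congr rfl fun k hk => ?_
    have hk' : 1 ≤ k ∧ k.primeFactors ⊆ q.primeFactors := by
      simp only [QI, Finset.mem_filter, Finset.mem_Icc] at hk
      exact ⟨hk.1.1, hk.2⟩
    rw [Nat.Coprime.gcd_mul_left_cancel l (af_cop hk'.1 hk'.2 hmq)]
    rw [Nat.cast_mul, Real.sqrt_mul (Nat.cast_nonneg k), div_div]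
  · rw [zero_div, zero_mul]

theorem pj_shc {q z A : ℕ} {a : ℕ → ℝ} (ha : Sht z A a) (hq : 1 ≤ q) :
    ShC q z A (pj q A a) := by
  constructor
  · intro m hm
    unfold pj at hm
    split_ifs at hm with hmq
    · obtain ⟨k, hk, hk1⟩ := Finset.exists_ne_zero_of_sum_ne_zero hm
      have h1 : a (k * m) ≠ 0 := by
        intro h
        rw [h, zero_div] at hk1
        exact hk1 rfl
      obtain ⟨h2, h3⟩ := ha.sup _ h1
      have hk' : 1 ≤ k := by
        simp only [QI, Finset.mem_filter, Finset.mem_Icc] at hk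
        exact hk.1.1
      refine ⟨phi_smooth_dvd h2 (Dvd.intro_left _ rfl), ?_, hmq⟩
      calc m = 1 * m := (one_mul _).symm
        _ ≤ k * m := Nat.mul_le_mul_right _ hk'
        _ ≤ A := h3
    · exact absurd rfl hm
  · have h0 := af_sum (A := A) hq (fun n => |a n|) (by
      intro n hn
      have : a n = 0 := by
        by_contra h
        have := (ha.sup n h).2
        omega
      simp only [this, abs_zero])
    refine le_trans ?_ ha.l1
    rw [← h0, Finset.sum_filter]
    refine Finset.sum_le_sum fun l _ => ?_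
    unfold pj
    split_ifs with hlq
    · refine (Finset.abs_sum_le_sum_abs _ _).trans (Finset.sum_le_sum fun k hk => ?_)
      have hk' : 1 ≤ k := by
        simp only [QI, Finset.mem_filter, Finset.mem_Icc] at hk
        exact hk.1.1
      rw [abs_div, abs_of_nonneg (Real.sqrt_nonneg _)]
      refine div_le_self (abs_nonneg _) ?_
      rw [Real.one_le_sqrt]
      exact_mod_cast hk'
    · rw [abs_zero]

theorem pj_cn {q z A : ℕ} {a : ℕ → ℝ} (ha : Sht z A a) (hq : 1 ≤ q) :
    cnC q z A (pj q A a) ≤ cn z A a := by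
  classical
  have hs := (phi_al_pr (z := z) (A := A) ha.sup).1
  have h1 : ∀ m : ℕ, 0 ≤ (if smooth z m ∧ m.Coprime q then Ph A (pj q A a) m ^ 2 / m else 0) := by
    intro m
    split_ifs
    · positivity
    · exact le_rfl
  have h2 : ∀ m : ℕ, (if smooth z m ∧ m.Coprime q then Ph A (pj q A a) m ^ 2 / m else 0) ≤
      (if smooth z m then Ph A a m ^ 2 / m else 0) := by
    intro m
    split_ifs with h3 h4
    · rw [pj_ph ha.sup hq (Nat.one_le_iff_ne_zero.2 h3.1.1) h3.2]
    · exact absurd h3.1 h4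
    · positivity
    · exact le_rfl
  unfold cnC cn
  exact (hs.of_nonneg_of_le h1 h2).tsum_le_tsum h2 hs

theorem pj_cd {q z A : ℕ} {a s : ℕ → ℝ} (ha : Sht z A a) (hs : ∀ m, s m ≠ 0 → m ≤ A)
    (hq : 1 ≤ q) : cdC q z A (pj q A a) s ≤ cd z A a s := by
  classical
  have hs1 := (phi_al_pr (z := z) (A := A) ha.sup).1
  have hs2 : Summable (fun m : ℕ => if smooth z m then (Ph A a m / Real.sqrt m - s m) ^ 2
      else 0) := by
    have h3 : Summable (fun m : ℕ => if smooth z m then
        (s m ^ 2 - 2 * (Ph A a m / Real.sqrt m) * s m) else 0) := by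
      refine summable_of_ne_finset_zero (s := Finset.range (A + 1)) fun m hm => ?_
      have : s m = 0 := by
        by_contra h
        have := hs m h
        rw [Finset.mem_range] at hm
        omega
      rw [this]
      simp
    refine (hs1.add h3).congr fun m => ?_
    split_ifs
    · have : Ph A a m ^ 2 / (m : ℝ) = (Ph A a m / Real.sqrt m) ^ 2 := by
        rw [div_pow, Real.sq_sqrt (Nat.cast_nonneg m)]
      rw [this]
      ring
    · simp
  have h1 : ∀ m : ℕ, 0 ≤ (if smooth z m ∧ m.Coprime q then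
      (Ph A (pj q A a) m / Real.sqrt m - s m) ^ 2 else 0) := by
    intro m
    split_ifs
    · positivity
    · exact le_rfl
  have h2 : ∀ m : ℕ, (if smooth z m ∧ m.Coprime q then
      (Ph A (pj q A a) m / Real.sqrt m - s m) ^ 2 else 0) ≤
      (if smooth z m then (Ph A a m / Real.sqrt m - s m) ^ 2 else 0) := by
    intro m
    split_ifs with h3 h4
    · rw [pj_ph ha.sup hq (Nat.one_le_iff_ne_zero.2 h3.1.1) h3.2]
    · exact absurd h3.1 h4
    · positivity
    · exact le_rfl
  unfold cdC cd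
  exact (hs2.of_nonneg_of_le h1 h2).tsum_le_tsum h2 hs2

end Pool.Agent.TK
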